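import Pool.Agent.PVD.StmtsL

/-! MP_e25c73_gt, block L, row GEJ: the integral `J` at `y = 1/64`. -/

set_option autoImplicit false
open MeasureTheory

namespace Pool.Agent.PVD.L.H14

theorem ph_ge {x : ℝ} (hx : 0 ≤ x) : 1 / 64 ≤ ph x := by
  unfold ph
  linarith

theorem ph_cont : Continuous ph := by
  unfold ph
  fun_prop

theorem ph_sq {x : ℝ} (hx : 0 ≤ x) : 1 / 4096 ≤ ph x ^ 2 := by
  have := ph_ge hx
  nlinarith

theorem abs_div_le {a b A B : ℝ} (hb : B ≤ b) (hB : 0 < B) (ha : |a| ≤ A) : |a / b| ≤ A / B := by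
  have h1 : 0 < b := lt_of_lt_of_le hB hb
  have hA : 0 ≤ A := (abs_nonneg a).trans ha
  rw [abs_div, abs_of_pos h1]
  exact div_le_div₀ hA ha hB hb

theorem gej : GejStmt := by
  refine ⟨20000, by norm_num, ?_⟩
  intro e h0 h1
  have he1 : e < 1 := by linarith
  obtain ⟨f, hf⟩ : ∃ f : ℝ → ℝ, f = fm e (bas e (1 / 64)) := ⟨_, rfl⟩
  have hfc : Continuous f := by rw [hf]; exact fm_cont e _
  have hlo : ∀ t, 0 ≤ t → t ≤ 1 → t ≤ f t := by
    rw [hf]
    exact (bas_adm h0 h1 le_rfl (by norm_num)).lo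
  have hJ : JJ e (1 / 64) = ∫ t in (0:ℝ)..1, t * (cl e 3 t - cl e 2 t) / f t ^ 2 := by
    rw [hf]
    rfl
  have hnear : ∀ t ∈ Set.Ioc (0:ℝ) e, t * (cl e 3 t - cl e 2 t) / f t ^ 2 =
      (2 * e - 1) * (64 * e) ^ 2 := by
    intro t ht
    have h2 : f t = 1 / 64 / e * t := by rw [hf]; exact bas_near h0 he1 ht.2
    have h3 : t ≠ 0 := ht.1.ne'
    rw [h2, cl_three, cl_two, min_eq_left ht.2, min_eq_left (by linarith [ht.2])]
    field_simp
    ring
  have hint1 : IntervalIntegrable (fun t => t * (cl e 3 t - cl e 2 t) / f t ^ 2) volume 0 e := by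
    rw [intervalIntegrable_iff_integrableOn_Ioc_of_le h0.le]
    refine (integrableOn_congr_fun hnear measurableSet_Ioc).2 ?_
    exact continuous_const.integrableOn_Ioc
  have hI1 : ∫ t in (0:ℝ)..e, t * (cl e 3 t - cl e 2 t) / f t ^ 2 =
      e * ((2 * e - 1) * (64 * e) ^ 2) := by
    rw [intervalIntegral.integral_of_le h0.le, setIntegral_congr_fun measurableSet_Ioc hnear,
      ← intervalIntegral.integral_of_le h0.le, intervalIntegral.integral_const, smul_eq_mul,
      sub_zero]
  have hpos : ∀ t ∈ Set.Icc e 1, f t ^ 2 ≠ 0 := by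
    intro t ht
    have : 0 < f t := lt_of_lt_of_le (lt_of_lt_of_le h0 ht.1) (hlo t (h0.le.trans ht.1) ht.2)
    positivity
  have hA : ContinuousOn (fun t => t * (2 * t - 1) / f t ^ 2) (Set.Icc e 1) := by
    apply ContinuousOn.div _ _ hpos
    · fun_prop
    · fun_prop
  have hB : ContinuousOn (fun t => t * (t - min t (1 - e)) / f t ^ 2) (Set.Icc e 1) := by
    apply ContinuousOn.div _ _ hpos
    · fun_prop
    · fun_prop
  have hC : ContinuousOn (fun t => t * (cl e 3 t - cl e 2 t) / f t ^ 2) (Set.Icc e 1) := by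
    apply ContinuousOn.div _ _ hpos
    · have h2 := cl_cont e 3
      have h3 := cl_cont e 2
      fun_prop
    · fun_prop
  have hu : Set.uIcc e 1 = Set.Icc e 1 := Set.uIcc_of_le he1.le
  have hint2 : IntervalIntegrable (fun t => t * (cl e 3 t - cl e 2 t) / f t ^ 2) volume e 1 :=
    ContinuousOn.intervalIntegrable (by rw [hu]; exact hC)
  have hintA : IntervalIntegrable (fun t => t * (2 * t - 1) / f t ^ 2) volume e 1 :=
    ContinuousOn.intervalIntegrable (by rw [hu]; exact hA)
  have hintB : IntervalIntegrable (fun t => t * (t - min t (1 - e)) / f t ^ 2) volume e 1 :=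
    ContinuousOn.intervalIntegrable (by rw [hu]; exact hB)
  have hsplit : ∫ t in e..1, t * (cl e 3 t - cl e 2 t) / f t ^ 2 =
      e * (∫ t in e..1, t * (2 * t - 1) / f t ^ 2) -
        ∫ t in e..1, t * (t - min t (1 - e)) / f t ^ 2 := by
    rw [← intervalIntegral.integral_const_mul,
      ← intervalIntegral.integral_sub (hintA.const_mul e) hintB]
    apply intervalIntegral.integral_congr
    intro t ht
    rw [hu] at ht
    show t * (cl e 3 t - cl e 2 t) / f t ^ 2 = e * (t * (2 * t - 1) / f t ^ 2) -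
      t * (t - min t (1 - e)) / f t ^ 2
    rw [cl_three, cl_two, min_eq_right ht.1]
    ring
  have hB0 : |∫ t in e..1, t * (t - min t (1 - e)) / f t ^ 2| ≤ 2 * e ^ 2 := by
    have i1 : IntervalIntegrable (fun t => t * (t - min t (1 - e)) / f t ^ 2) volume e (1 - e) := by
      apply ContinuousOn.intervalIntegrable
      rw [Set.uIcc_of_le (by linarith)]
      exact hB.mono (Set.Icc_subset_Icc le_rfl (by linarith))
    have i2 : IntervalIntegrable (fun t => t * (t - min t (1 - e)) / f t ^ 2) volume (1 - e) 1 := by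
      apply ContinuousOn.intervalIntegrable
      rw [Set.uIcc_of_le (by linarith)]
      exact hB.mono (Set.Icc_subset_Icc (by linarith) le_rfl)
    have hz : ∫ t in e..(1 - e), t * (t - min t (1 - e)) / f t ^ 2 = 0 := by
      rw [intervalIntegral.integral_congr (g := fun _ => (0:ℝ))]
      · simp
      · intro t ht
        rw [Set.uIcc_of_le (by linarith)] at ht
        show t * (t - min t (1 - e)) / f t ^ 2 = 0
        rw [min_eq_left ht.2, sub_self, mul_zero, zero_div]
    rw [← intervalIntegral.integral_add_adjacent_intervals i1 i2, hz, zero_add]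
    have h2 := intervalIntegral.norm_integral_le_of_norm_le_const (C := 2 * e) (a := 1 - e) (b := 1)
      (f := fun t => t * (t - min t (1 - e)) / f t ^ 2) (by
        intro t ht
        rw [Set.uIoc_of_le (by linarith)] at ht
        have ht1 : 1 / 2 ≤ t := by linarith [ht.1]
        have h3 := hlo t (by linarith) ht.2
        have h4 : t ^ 2 ≤ f t ^ 2 := by nlinarith
        rw [Real.norm_eq_abs, min_eq_right ht.1.le, abs_of_nonneg]
        · rw [div_le_iff₀ (by nlinarith)]
          have h5 : t * (t - (1 - e)) ≤ t * e := by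
            apply mul_le_mul_of_nonneg_left _ (by linarith)
            linarith [ht.2]
          have h6 : t * e ≤ 2 * e * t ^ 2 := by nlinarith [mul_nonneg h0.le (by linarith : 0 ≤ t)]
          have h7 : 2 * e * t ^ 2 ≤ 2 * e * f t ^ 2 := by
            apply mul_le_mul_of_nonneg_left h4 (by linarith)
          linarith
        · apply div_nonneg _ (sq_nonneg _)
          apply mul_nonneg (by linarith)
          linarith [ht.1])
    rw [Real.norm_eq_abs] at h2
    refine h2.trans (le_of_eq ?_)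
    rw [show (1:ℝ) - (1 - e) = e by ring, abs_of_pos h0]
    ring
  have hM : ∫ t in e..1, t * (2 * t - 1) / f t ^ 2 = (1 - e) * ∫ x in (0:ℝ)..1,
      (e + (1 - e) * x) * (2 * (e + (1 - e) * x) - 1) / ph x ^ 2 := by
    have hc : (1 - e) ≠ 0 := by linarith
    have h2 := intervalIntegral.integral_comp_add_mul (a := 0) (b := 1)
      (fun t => t * (2 * t - 1) / f t ^ 2) hc e
    rw [mul_zero, add_zero, mul_one, add_sub_cancel, smul_eq_mul] at h2
    rw [eq_inv_mul_iff_mul_eq₀ hc] at h2
    rw [← h2]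
    congr 1
    apply intervalIntegral.integral_congr
    intro x hx
    rw [Set.uIcc_of_le zero_le_one] at hx
    have h3 : f (e + (1 - e) * x) = ph x := by
      rw [hf, bas_far h0 he1 (by nlinarith [hx.1]), ph]
      field_simp
      ring
    show (e + (1 - e) * x) * (2 * (e + (1 - e) * x) - 1) / f (e + (1 - e) * x) ^ 2 = _
    rw [h3]
  have hne : ∀ x ∈ Set.Icc (0:ℝ) 1, ph x ^ 2 ≠ 0 := fun x hx => by
    have := ph_ge hx.1
    positivity
  have hcP : ContinuousOn (fun x => (e + (1 - e) * x) * (2 * (e + (1 - e) * x) - 1) / ph x ^ 2)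
      (Set.Icc 0 1) := by
    apply ContinuousOn.div _ _ hne
    · fun_prop
    · exact (ph_cont.pow 2).continuousOn
  have hcj : ContinuousOn (fun x => x * (1 - 2 * x) / ph x ^ 2) (Set.Icc 0 1) := by
    apply ContinuousOn.div _ _ hne
    · fun_prop
    · exact (ph_cont.pow 2).continuousOn
  have hu1 : Set.uIcc (0:ℝ) 1 = Set.Icc 0 1 := Set.uIcc_of_le zero_le_one
  have hPj : |(∫ x in (0:ℝ)..1, (e + (1 - e) * x) * (2 * (e + (1 - e) * x) - 1) / ph x ^ 2) + j0|
      ≤ 12288 * e := by
    unfold j0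
    rw [← intervalIntegral.integral_add (ContinuousOn.intervalIntegrable (by rw [hu1]; exact hcP))
      (ContinuousOn.intervalIntegrable (by rw [hu1]; exact hcj))]
    have h2 := intervalIntegral.norm_integral_le_of_norm_le_const (C := 12288 * e) (a := (0:ℝ))
      (b := 1) (f := fun x => (e + (1 - e) * x) * (2 * (e + (1 - e) * x) - 1) / ph x ^ 2 +
        x * (1 - 2 * x) / ph x ^ 2) (by
        intro x hx
        rw [Set.uIoc_of_le zero_le_one] at hx
        rw [Real.norm_eq_abs, ← add_div]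
        have h3 : |(e + (1 - e) * x) * (2 * (e + (1 - e) * x) - 1) + x * (1 - 2 * x)| ≤ 3 * e := by
          have e1 : (e + (1 - e) * x) * (2 * (e + (1 - e) * x) - 1) + x * (1 - 2 * x) =
            e * ((1 - x) * (2 * (e + (1 - e) * x + x) - 1)) := by ring
          rw [e1, abs_mul, abs_of_pos h0, mul_comm]
          apply mul_le_mul_of_nonneg_right _ h0.le
          have hx1 : 0 ≤ 1 - x := by linarith [hx.2]
          have h5 : e + (1 - e) * x ≤ 1 := by nlinarith
          have h6 : 0 ≤ e + (1 - e) * x := by nlinarith [hx.1]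
          rw [abs_mul, abs_of_nonneg hx1]
          have h4 : |2 * (e + (1 - e) * x + x) - 1| ≤ 3 := by
            rw [abs_le]
            constructor <;> linarith [hx.1, hx.2]
          calc (1 - x) * |2 * (e + (1 - e) * x + x) - 1| ≤ 1 * 3 := by
                apply mul_le_mul _ h4 (abs_nonneg _) zero_le_one
                linarith [hx.1]
            _ = 3 := by norm_num
        refine (abs_div_le (ph_sq hx.1.le) (by norm_num) h3).trans (le_of_eq ?_)
        ring)
    rw [Real.norm_eq_abs] at h2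
    refine h2.trans (le_of_eq ?_)
    norm_num
  have hj : |j0| ≤ 4096 := by
    unfold j0
    have h2 := intervalIntegral.norm_integral_le_of_norm_le_const (C := 4096) (a := (0:ℝ))
      (b := 1) (f := fun x => x * (1 - 2 * x) / ph x ^ 2) (by
        intro x hx
        rw [Set.uIoc_of_le zero_le_one] at hx
        rw [Real.norm_eq_abs]
        have h3 : |x * (1 - 2 * x)| ≤ 1 := by
          rw [abs_mul, abs_of_pos hx.1]
          have h4 : |1 - 2 * x| ≤ 1 := by
            rw [abs_le]
            constructor <;> linarith [hx.1, hx.2]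
          nlinarith [abs_nonneg (1 - 2 * x), hx.1, hx.2]
        refine (abs_div_le (ph_sq hx.1.le) (by norm_num) h3).trans (le_of_eq ?_)
        norm_num)
    rw [Real.norm_eq_abs] at h2
    refine h2.trans (le_of_eq ?_)
    norm_num
  rw [hJ, ← intervalIntegral.integral_add_adjacent_intervals hint1 hint2, hI1, hsplit, hM]
  obtain ⟨P, hP⟩ : ∃ P : ℝ, P = ∫ x in (0:ℝ)..1,
      (e + (1 - e) * x) * (2 * (e + (1 - e) * x) - 1) / ph x ^ 2 := ⟨_, rfl⟩
  obtain ⟨B, hBd⟩ : ∃ B : ℝ, B = ∫ t in e..1, t * (t - min t (1 - e)) / f t ^ 2 := ⟨_, rfl⟩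
  rw [← hP] at hPj ⊢
  rw [← hBd] at hB0 ⊢
  have e1 : e * ((2 * e - 1) * (64 * e) ^ 2) + (e * ((1 - e) * P) - B) + e * j0 =
      -(e ^ 2 * (4096 * e * (1 - 2 * e))) + e * (1 - e) * (P + j0) + e ^ 2 * j0 - B := by ring
  rw [e1]
  have a1 : |e ^ 2 * (4096 * e * (1 - 2 * e))| ≤ e ^ 2 * 32 := by
    rw [abs_of_nonneg (by
      apply mul_nonneg (sq_nonneg _)
      apply mul_nonneg (by linarith)
      linarith)]
    apply mul_le_mul_of_nonneg_left _ (sq_nonneg _)
    nlinarith
  have a2 : |e * (1 - e) * (P + j0)| ≤ e ^ 2 * 12288 := by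
    rw [abs_mul, abs_of_nonneg (mul_nonneg h0.le (by linarith))]
    have h2 : e * (1 - e) ≤ e := by nlinarith
    calc e * (1 - e) * |P + j0| ≤ e * (12288 * e) :=
          mul_le_mul h2 hPj (abs_nonneg _) h0.le
      _ = e ^ 2 * 12288 := by ring
  have a3 : |e ^ 2 * j0| ≤ e ^ 2 * 4096 := by
    rw [abs_mul, abs_of_nonneg (sq_nonneg e)]
    exact mul_le_mul_of_nonneg_left hj (sq_nonneg _)
  have b1 := abs_sub (-(e ^ 2 * (4096 * e * (1 - 2 * e))) + e * (1 - e) * (P + j0) + e ^ 2 * j0) B
  have b2 := abs_add_le (-(e ^ 2 * (4096 * e * (1 - 2 * e))) + e * (1 - e) * (P + j0))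
    (e ^ 2 * j0)
  have b3 := abs_add_le (-(e ^ 2 * (4096 * e * (1 - 2 * e)))) (e * (1 - e) * (P + j0))
  rw [abs_neg] at b3
  have := sq_nonneg e
  linarith

end Pool.Agent.PVD.L.H14
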